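import Mathlib

/-!
# A Hilbert space inequality for quadratic families of commuting isometries

Limits along an idempotent ultrafilter `p` of a commutative additive semigroup `M`.
-/

set_option autoImplicit false

namespace Pool.Agent.Lib.MP_018e2a_an.TH

open Filter Topology InnerProductSpace

section lim

variable {M : Type*} (p : Ultrafilter M)

/-- bounded real functions converge along an ultrafilter -/
lemma exists_lim (φ : M → ℝ) (C : ℝ) (h : ∀ m, |φ m| ≤ C) :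
    ∃ x : ℝ, |x| ≤ C ∧ Tendsto φ p (𝓝 x) := by
  have h1 : (p.map φ : Filter ℝ) ≤ 𝓟 (Set.Icc (-C) C) := by
    rw [Ultrafilter.coe_map, Filter.le_principal_iff, Filter.mem_map]
    refine Filter.univ_mem' ?_
    intro m
    exact abs_le.mp (h m)
  obtain ⟨x, hx, hx'⟩ := isCompact_Icc.ultrafilter_le_nhds (p.map φ) h1
  refine ⟨x, abs_le.mpr hx, ?_⟩
  rw [Ultrafilter.coe_map] at hx'
  exact hx'

/-- idempotent ultrafilters -/
def Idem {M : Type*} [Add M] (p : Ultrafilter M) : Prop :=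
  ∀ Q : M → Prop, (∀ᶠ m in (p : Filter M), Q m) →
    ∀ᶠ a in (p : Filter M), ∀ᶠ b in (p : Filter M), Q (a + b)

lemma Idem.lim {M : Type*} [Add M] {p : Ultrafilter M} (hp : Idem p) {φ : M → ℝ} {x : ℝ}
    (h : Tendsto φ p (𝓝 x)) {y : M → ℝ} (hy : ∀ a, Tendsto (fun b => φ (a + b)) p (𝓝 (y a))) :
    Tendsto y p (𝓝 x) := by
  rw [Metric.tendsto_nhds] at h ⊢
  intro ε hε
  filter_upwards [hp _ (h (ε / 2) (half_pos hε))] with a ha
  have h1 : Tendsto (fun b => dist (φ (a + b)) x) p (𝓝 (dist (y a) x)) :=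
    (hy a).dist tendsto_const_nhds
  have h2 : dist (y a) x ≤ ε / 2 := le_of_tendsto h1 (ha.mono fun b hb => hb.le)
  linarith

end lim

section hilbert

variable {M : Type*} (p : Ultrafilter M)
variable {H : Type*} [NormedAddCommGroup H] [InnerProductSpace ℝ H] [CompleteSpace H]

/-- weak limits of bounded families -/
lemma exists_wlim (x : M → H) (C : ℝ) (hx : ∀ m, ‖x m‖ ≤ C) :
    ∃ z : H, ∀ g, Tendsto (fun m => ⟪x m, g⟫_ℝ) p (𝓝 ⟪z, g⟫_ℝ) := by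
  have h1 : ∀ g, ∃ r : ℝ, |r| ≤ C * ‖g‖ ∧ Tendsto (fun m => ⟪x m, g⟫_ℝ) p (𝓝 r) := by
    intro g
    refine exists_lim p _ _ ?_
    intro m
    exact (abs_real_inner_le_norm _ _).trans (mul_le_mul_of_nonneg_right (hx m) (norm_nonneg _))
  choose ℓ hℓ hℓ' using h1
  let L : H →ₗ[ℝ] ℝ :=
    { toFun := ℓ
      map_add' := by
        intro g h
        refine tendsto_nhds_unique (hℓ' (g + h)) ?_
        have h2 := (hℓ' g).add (hℓ' h)
        refine h2.congr ?_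
        intro m
        rw [inner_add_right]
      map_smul' := by
        intro c g
        refine tendsto_nhds_unique (hℓ' (c • g)) ?_
        have h2 := (hℓ' g).const_mul c
        refine h2.congr ?_
        intro m
        rw [real_inner_smul_right] }
  let L' : H →L[ℝ] ℝ := L.mkContinuous C (fun g => by
    rw [Real.norm_eq_abs]
    exact hℓ g)
  refine ⟨(toDual ℝ H).symm L', ?_⟩
  intro g
  rw [toDual_symm_apply]
  exact hℓ' g

variable {p}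

/-- weak limit of `W m g` for an additive family of isometries -/
lemma wproj [Add M] (hp : Idem p) (W : M → (H →L[ℝ] H))
    (hW : ∀ m g h, ⟪W m g, W m h⟫_ℝ = ⟪g, h⟫_ℝ) (hadd : ∀ a b g, W (a + b) g = W a (W b g))
    (g : H) :
    ∃ z : H, (∀ k, Tendsto (fun m => ⟪W m g, k⟫_ℝ) p (𝓝 ⟪z, k⟫_ℝ)) ∧
      (∀ h, Tendsto (fun m => ⟪z, W m h⟫_ℝ) p (𝓝 ⟪z, h⟫_ℝ)) := by
  have hn : ∀ m (g : H), ‖W m g‖ = ‖g‖ := by
    intro m g
    have h1 := hW m g g
    rw [real_inner_self_eq_norm_sq, real_inner_self_eq_norm_sq] at h1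
    exact (pow_left_inj₀ (norm_nonneg _) (norm_nonneg _) two_ne_zero).mp h1
  obtain ⟨z, hz⟩ := exists_wlim p (fun m => W m g) ‖g‖ (fun m => (hn m g).le)
  refine ⟨z, hz, ?_⟩
  -- `W b z → z` weakly
  have h1 : ∀ k, Tendsto (fun b => ⟪W b z, k⟫_ℝ) p (𝓝 ⟪z, k⟫_ℝ) := by
    intro k
    refine hp.lim (hz k) ?_
    intro b
    have h2 := hz ((W b).adjoint k)
    rw [ContinuousLinearMap.adjoint_inner_right] at h2
    refine h2.congr ?_
    intro m
    rw [ContinuousLinearMap.adjoint_inner_right, hadd]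
  -- strongly
  have h2 : Tendsto (fun b => ‖W b z - z‖) p (𝓝 0) := by
    have h3 : ∀ b, ‖W b z - z‖ = Real.sqrt (2 * ‖z‖ ^ 2 - 2 * ⟪W b z, z⟫_ℝ) := by
      intro b
      rw [← Real.sqrt_sq (norm_nonneg (W b z - z)), norm_sub_sq_real, hn]
      congr 1
      ring
    have h4 : Tendsto (fun b => Real.sqrt (2 * ‖z‖ ^ 2 - 2 * ⟪W b z, z⟫_ℝ)) p
        (𝓝 (Real.sqrt (2 * ‖z‖ ^ 2 - 2 * ⟪z, z⟫_ℝ))) :=
      (Real.continuous_sqrt.tendsto _).comp (tendsto_const_nhds.sub ((h1 z).const_mul 2))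
    rw [real_inner_self_eq_norm_sq, sub_self, Real.sqrt_zero] at h4
    exact h4.congr fun b => (h3 b).symm
  intro h
  have h3 : ∀ b, ⟪z, W b h⟫_ℝ = ⟪z, h⟫_ℝ - ⟪W b z - z, W b h⟫_ℝ := by
    intro b
    rw [inner_sub_left, hW]
    ring
  have h4 : Tendsto (fun b => ⟪W b z - z, W b h⟫_ℝ) p (𝓝 0) := by
    refine squeeze_zero_norm (a := fun b => ‖W b z - z‖ * ‖h‖) ?_ ?_
    · intro b
      rw [Real.norm_eq_abs]
      refine (abs_real_inner_le_norm _ _).trans ?_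
      rw [hn]
    · have := h2.mul_const ‖h‖
      rwa [zero_mul] at this
  have h5 := (tendsto_const_nhds (x := ⟪z, h⟫_ℝ) (f := (p : Filter M))).sub h4
  rw [sub_zero] at h5
  exact h5.congr fun b => (h3 b).symm

/-- the inequality `2 ⟨V B h, h⟩ ≤ ‖h‖² + ⟨V h, h⟩` for the limit projection `B` -/
lemma two_mul_le [Add M] (hp : Idem p) (W : M → (H →L[ℝ] H))
    (hW : ∀ m g h, ⟪W m g, W m h⟫_ℝ = ⟪g, h⟫_ℝ) (hadd : ∀ a b g, W (a + b) g = W a (W b g))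
    (V : H →L[ℝ] H) (hV : ∀ g h, ⟪V g, V h⟫_ℝ = ⟪g, h⟫_ℝ) (hVW : ∀ m g, V (W m g) = W m (V g))
    (h : H) (D : ℝ) (hD : Tendsto (fun m => ⟪V (W m h), h⟫_ℝ) p (𝓝 D)) :
    2 * D ≤ ‖h‖ ^ 2 + ⟪V h, h⟫_ℝ := by
  obtain ⟨y, hy, hy'⟩ := wproj hp W hW hadd h
  obtain ⟨w, hw, hw'⟩ := wproj hp W hW hadd (V h)
  obtain ⟨u, hu, hu'⟩ := wproj hp W hW hadd (h + V h)
  obtain ⟨v, hv, hv'⟩ := wproj hp W hW hadd (h - V h)
  have hDw : D = ⟪w, h⟫_ℝ := by
    refine tendsto_nhds_unique hD ((hw h).congr ?_)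
    intro m
    rw [hVW]
  -- symmetry
  have e1 : ⟪y, V h⟫_ℝ = ⟪y, w⟫_ℝ := by
    refine tendsto_nhds_unique (hy' (V h)) ((hw y).congr ?_ |>.trans_eq ?_)
    · intro m
      rw [real_inner_comm]
    · rw [real_inner_comm]
  have e2 : ⟪w, h⟫_ℝ = ⟪w, y⟫_ℝ := by
    refine tendsto_nhds_unique (hw' h) ((hy w).congr ?_ |>.trans_eq ?_)
    · intro m
      rw [real_inner_comm]
    · rw [real_inner_comm]
  have e3 : ⟪y, V h⟫_ℝ = ⟪w, h⟫_ℝ := by
    rw [e1, e2, real_inner_comm]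
  -- self pairing
  have self : ∀ g z : H, (∀ k, Tendsto (fun m => ⟪W m g, k⟫_ℝ) p (𝓝 ⟪z, k⟫_ℝ)) →
      (∀ h, Tendsto (fun m => ⟪z, W m h⟫_ℝ) p (𝓝 ⟪z, h⟫_ℝ)) → ⟪z, g⟫_ℝ = ⟪z, z⟫_ℝ := by
    intro g z h1 h2
    refine tendsto_nhds_unique (h2 g) ((h1 z).congr ?_)
    intro m
    rw [real_inner_comm]
  have su := self _ _ hu hu'
  have sv := self _ _ hv hv'
  have hule : ⟪u, h + V h⟫_ℝ ≤ ‖h + V h‖ ^ 2 := by
    have h1 : ‖u‖ ^ 2 ≤ ‖u‖ * ‖h + V h‖ := by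
      rw [← real_inner_self_eq_norm_sq, ← su]
      exact real_inner_le_norm _ _
    have h2 : ‖u‖ ≤ ‖h + V h‖ := by
      rcases (norm_nonneg u).eq_or_lt with h3 | h3
      · rw [← h3]; exact norm_nonneg _
      · rw [sq] at h1
        exact le_of_mul_le_mul_left h1 h3
    rw [su, real_inner_self_eq_norm_sq]
    exact pow_le_pow_left₀ (norm_nonneg _) h2 2
  have hvge : 0 ≤ ⟪v, h - V h⟫_ℝ := by
    rw [sv]
    exact real_inner_self_nonneg
  -- expand by limits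
  have eu : ⟪u, h + V h⟫_ℝ = ⟪y, h⟫_ℝ + ⟪y, V h⟫_ℝ + (⟪w, h⟫_ℝ + ⟪w, V h⟫_ℝ) := by
    refine tendsto_nhds_unique (hu (h + V h))
      ((((hy h).add (hy (V h))).add ((hw h).add (hw (V h)))).congr ?_)
    intro m
    rw [map_add, inner_add_left, inner_add_right, inner_add_right]
  have ev : ⟪v, h - V h⟫_ℝ = ⟪y, h⟫_ℝ - ⟪y, V h⟫_ℝ - (⟪w, h⟫_ℝ - ⟪w, V h⟫_ℝ) := by
    refine tendsto_nhds_unique (hv (h - V h))
      ((((hy h).sub (hy (V h))).sub ((hw h).sub (hw (V h)))).congr ?_)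
    intro m
    rw [map_sub, inner_sub_left, inner_sub_right, inner_sub_right]
  have hn : ‖h + V h‖ ^ 2 = 2 * ‖h‖ ^ 2 + 2 * ⟪V h, h⟫_ℝ := by
    rw [norm_add_sq_real, ← real_inner_self_eq_norm_sq (V h), hV, real_inner_self_eq_norm_sq,
      real_inner_comm]
    ring
  rw [hDw]
  linarith

end hilbert

end Pool.Agent.Lib.MP_018e2a_an.TH
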