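import Mathlib
import Pool.Agent.Lib.MP_018e2a_an.TH.Hilbert

/-!
# A van der Corput inequality along an idempotent ultrafilter, and the bound `-1/2`
-/

set_option autoImplicit false

namespace Pool.Agent.Lib.MP_018e2a_an.TH

open Filter Topology InnerProductSpace

section ev

variable {M : Type*} (p : Ultrafilter M)

/-- `p`-most `a₁`, `p`-most `a₂`, ..., `p`-most `aₙ` satisfy `Q [a₁, ..., aₙ]` -/
def Ev : ℕ → (List M → Prop) → Prop
  | 0, Q => Q []
  | n + 1, Q => ∀ᶠ a in (p : Filter M), Ev n (fun l => Q (a :: l))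

variable {p}

lemma Ev.mono {n : ℕ} {Q R : List M → Prop} (h : Ev p n Q) (hQR : ∀ l, Q l → R l) :
    Ev p n R := by
  induction n generalizing Q R with
  | zero => exact hQR _ h
  | succ n ih =>
    refine Filter.Eventually.mono h ?_
    intro a ha
    exact ih ha fun l hl => hQR _ hl

lemma Ev.and {n : ℕ} {Q R : List M → Prop} (h : Ev p n Q) (h' : Ev p n R) :
    Ev p n (fun l => Q l ∧ R l) := by
  induction n generalizing Q R with
  | zero => exact ⟨h, h'⟩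
  | succ n ih =>
    refine (Filter.Eventually.and h h').mono ?_
    intro a ha
    exact ih ha.1 ha.2

lemma Ev.exists {n : ℕ} {Q : List M → Prop} (h : Ev p n Q) : ∃ l, l.length = n ∧ Q l := by
  induction n generalizing Q with
  | zero => exact ⟨[], rfl, h⟩
  | succ n ih =>
    obtain ⟨a, ha⟩ := Filter.Eventually.exists h
    obtain ⟨l, hl, hQ⟩ := ih ha
    exact ⟨a :: l, by simp [hl], hQ⟩

variable [AddCommMonoid M]

lemma ev_sum (hp : Idem p) (n : ℕ) (Q : M → Prop) (h : ∀ᶠ m in (p : Filter M), Q m) :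
    ∀ᶠ a in (p : Filter M), Ev p n (fun l => Q (a + l.sum)) := by
  induction n generalizing Q with
  | zero =>
    refine h.mono ?_
    intro a ha
    show Q (a + ([] : List M).sum)
    simpa using ha
  | succ n ih =>
    filter_upwards [hp Q h] with a ha
    have h1 := ih (fun b => Q (a + b)) ha
    refine Filter.Eventually.mono h1 ?_
    intro b hb
    refine hb.mono ?_
    intro l hl
    show Q (a + (b :: l).sum)
    rw [List.sum_cons]
    exact hl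

/-- all tail sums satisfy `G` -/
def Tails (G : M → Prop) : List M → Prop
  | [] => True
  | a :: l => G (a + l.sum) ∧ Tails G l

lemma ev_tails (hp : Idem p) (G : M → Prop) (h : ∀ᶠ m in (p : Filter M), G m) (n : ℕ) :
    Ev p n (Tails G) := by
  induction n with
  | zero => exact trivial
  | succ n ih =>
    refine (ev_sum hp n G h).mono ?_
    intro a ha
    exact ha.and ih

/-- the pairs (accumulated block, tail sum) starting with block `c` -/
def Pr (R : M → M → Prop) : M → List M → Prop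
  | _, [] => True
  | c, a :: l => R c (a + l.sum) ∧ Pr R (c + a) l

lemma ev_pr (hp : Idem p) (R : M → M → Prop)
    (h : ∀ᶠ c in (p : Filter M), ∀ᶠ b in (p : Filter M), R c b) (n : ℕ) :
    ∀ᶠ c in (p : Filter M), Ev p n (Pr R c) := by
  induction n with
  | zero => exact Filter.univ_mem' fun c => trivial
  | succ n ih =>
    filter_upwards [h, hp _ ih] with c hc hc'
    filter_upwards [ev_sum hp n (R c) hc, hc'] with a ha ha'
    exact ha.and ha'

/-- all pairs -/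
def Pairs (R : M → M → Prop) : List M → Prop
  | [] => True
  | a :: l => Pr R a l ∧ Pairs R l

lemma ev_pairs (hp : Idem p) (R : M → M → Prop)
    (h : ∀ᶠ c in (p : Filter M), ∀ᶠ b in (p : Filter M), R c b) (n : ℕ) :
    Ev p n (Pairs R) := by
  induction n with
  | zero => exact trivial
  | succ n ih =>
    refine (ev_pr hp R h n).mono ?_
    intro a ha
    exact ha.and ih

end ev

section vdc

variable {M : Type*} {p : Ultrafilter M} [AddCommMonoid M]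
variable {H : Type*} [NormedAddCommGroup H] [InnerProductSpace ℝ H]

/-- the sum of `u` over the tail sums -/
def tl (u : M → H) : List M → H
  | [] => 0
  | a :: l => u (a + l.sum) + tl u l

lemma inner_tl_le (u : M → H) (D : ℝ) (l : List M) (c : M)
    (h : Pr (fun c b => ⟪u (c + b), u b⟫_ℝ ≤ D) c l) :
    ⟪u (c + l.sum), tl u l⟫_ℝ ≤ l.length * D := by
  induction l generalizing c with
  | nil => simp [tl]
  | cons a l ih =>
    obtain ⟨h1, h2⟩ := h
    have h3 := ih (c + a) h2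
    have e : c + (a :: l).sum = c + (a + l.sum) := by rw [List.sum_cons]
    have e' : c + (a :: l).sum = c + a + l.sum := by rw [List.sum_cons, add_assoc]
    have h4 : ⟪u (c + (a :: l).sum), tl u (a :: l)⟫_ℝ =
        ⟪u (c + (a + l.sum)), u (a + l.sum)⟫_ℝ + ⟪u (c + a + l.sum), tl u l⟫_ℝ := by
      show ⟪u (c + (a :: l).sum), u (a + l.sum) + tl u l⟫_ℝ = _
      rw [inner_add_right, ← e', ← e]
    rw [h4, List.length_cons]
    push_cast
    have h5 : ⟪u (c + (a + l.sum)), u (a + l.sum)⟫_ℝ ≤ D := h1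
    linarith

lemma norm_tl_le (u : M → H) (C D : ℝ) (hu : ∀ m, ‖u m‖ ≤ C) (l : List M)
    (h : Pairs (fun c b => ⟪u (c + b), u b⟫_ℝ ≤ D) l) :
    ‖tl u l‖ ^ 2 ≤ l.length * C ^ 2 + l.length * (l.length - 1) * D := by
  induction l with
  | nil => simp [tl]
  | cons a l ih =>
    obtain ⟨h1, h2⟩ := h
    have h3 := ih h2
    have h4 := inner_tl_le u D l a h1
    have h5 : ‖u (a + l.sum)‖ ^ 2 ≤ C ^ 2 := pow_le_pow_left₀ (norm_nonneg _) (hu _) 2
    have h6 : ‖tl u (a :: l)‖ ^ 2 =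
        ‖u (a + l.sum)‖ ^ 2 + 2 * ⟪u (a + l.sum), tl u l⟫_ℝ + ‖tl u l‖ ^ 2 := by
      show ‖u (a + l.sum) + tl u l‖ ^ 2 = _
      rw [norm_add_sq_real]
    rw [h6, List.length_cons]
    push_cast
    nlinarith

lemma abs_inner_tl (u : M → H) (h : H) (t ε : ℝ) (l : List M)
    (hl : Tails (fun b => |⟪u b, h⟫_ℝ - t| ≤ ε) l) :
    |⟪tl u l, h⟫_ℝ - l.length * t| ≤ l.length * ε := by
  induction l with
  | nil => simp [tl]
  | cons a l ih =>
    obtain ⟨h1, h2⟩ := hl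
    have h3 := ih h2
    have h4 : ⟪tl u (a :: l), h⟫_ℝ - ((a :: l).length : ℝ) * t =
        (⟪u (a + l.sum), h⟫_ℝ - t) + (⟪tl u l, h⟫_ℝ - l.length * t) := by
      show ⟪u (a + l.sum) + tl u l, h⟫_ℝ - _ = _
      rw [inner_add_left, List.length_cons]
      push_cast
      ring
    rw [h4, List.length_cons]
    push_cast
    have h5 : |⟪u (a + l.sum), h⟫_ℝ - t| ≤ ε := h1
    calc |(⟪u (a + l.sum), h⟫_ℝ - t) + (⟪tl u l, h⟫_ℝ - l.length * t)| ≤
        |⟪u (a + l.sum), h⟫_ℝ - t| + |⟪tl u l, h⟫_ℝ - l.length * t| := abs_add_le _ _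
      _ ≤ ε + l.length * ε := add_le_add h5 h3
      _ = _ := by ring

/-- van der Corput inequality along an idempotent ultrafilter -/
theorem vdc (hp : Idem p) (u : M → H) (C : ℝ) (hu : ∀ m, ‖u m‖ ≤ C) (h : H) (t : ℝ)
    (ht : Tendsto (fun m => ⟪u m, h⟫_ℝ) p (𝓝 t)) (d : M → ℝ)
    (hd : ∀ a, Tendsto (fun b => ⟪u (a + b), u b⟫_ℝ) p (𝓝 (d a))) (D : ℝ)
    (hD : Tendsto d p (𝓝 D)) : t ^ 2 ≤ ‖h‖ ^ 2 * D := by
  -- for all `n` and `ε`
  have key : ∀ n : ℕ, ∀ ε : ℝ, 0 < ε →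
      (n : ℝ) ^ 2 * (t ^ 2 - 2 * |t| * ε) ≤
        ‖h‖ ^ 2 * (n * C ^ 2 + n * (n - 1) * (D + ε)) := by
    intro n ε hε
    have h1 : ∀ᶠ m in (p : Filter M), |⟪u m, h⟫_ℝ - t| ≤ ε := by
      filter_upwards [Metric.tendsto_nhds.mp ht ε hε] with m hm
      rw [Real.dist_eq] at hm
      exact hm.le
    have h2 : ∀ᶠ c in (p : Filter M), ∀ᶠ b in (p : Filter M), ⟪u (c + b), u b⟫_ℝ ≤ D + ε := by
      filter_upwards [Metric.tendsto_nhds.mp hD (ε / 2) (half_pos hε)] with c hc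
      filter_upwards [Metric.tendsto_nhds.mp (hd c) (ε / 2) (half_pos hε)] with b hb
      rw [Real.dist_eq] at hc hb
      have h3 := (abs_lt.mp hc).2
      have h4 := (abs_lt.mp hb).2
      linarith
    obtain ⟨l, hl, hT, hP⟩ := ((ev_tails hp _ h1 n).and (ev_pairs hp _ h2 n)).exists
    have h3 := abs_inner_tl u h t ε l hT
    have h4 := norm_tl_le u C (D + ε) hu l hP
    rw [hl] at h3 h4
    have h5 : ⟪tl u l, h⟫_ℝ ^ 2 ≤ ‖h‖ ^ 2 * (n * C ^ 2 + n * (n - 1) * (D + ε)) := by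
      have h6 : ⟪tl u l, h⟫_ℝ ^ 2 ≤ ‖tl u l‖ ^ 2 * ‖h‖ ^ 2 := by
        have := abs_real_inner_le_norm (tl u l) h
        rw [← sq_abs, ← mul_pow]
        exact pow_le_pow_left₀ (abs_nonneg _) this 2
      calc ⟪tl u l, h⟫_ℝ ^ 2 ≤ ‖tl u l‖ ^ 2 * ‖h‖ ^ 2 := h6
        _ ≤ _ := by
          rw [mul_comm]
          exact mul_le_mul_of_nonneg_left h4 (sq_nonneg _)
    refine le_trans ?_ h5
    -- (n t)² - 2 n |t| n ε ≤ x²
    have h6 := abs_le.mp h3
    have h7 : (n : ℝ) * |t| - n * ε ≤ |⟪tl u l, h⟫_ℝ| := by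
      have h8 : |(n : ℝ) * t| ≤ |⟪tl u l, h⟫_ℝ| + |⟪tl u l, h⟫_ℝ - n * t| := by
        have := abs_sub_abs_le_abs_sub ((n : ℝ) * t) ⟪tl u l, h⟫_ℝ
        rw [abs_sub_comm] at this
        linarith
      rw [abs_mul, Nat.abs_cast] at h8
      linarith
    rw [← sq_abs ⟪tl u l, h⟫_ℝ, ← sq_abs t]
    have h9 : (0 : ℝ) ≤ n := Nat.cast_nonneg n
    have h10 := abs_nonneg t
    have h11 := abs_nonneg ⟪tl u l, h⟫_ℝ
    have h12 : 0 ≤ (n : ℝ) * |t| := mul_nonneg h9 h10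
    have h13 : 0 ≤ (n : ℝ) * ε := mul_nonneg h9 hε.le
    rcases le_total 0 ((n : ℝ) * |t| - n * ε) with h14 | h14
    · have h15 := pow_le_pow_left₀ h14 h7 2
      nlinarith
    · nlinarith
  -- let `ε → 0`
  have key2 : ∀ n : ℕ, (n : ℝ) ^ 2 * t ^ 2 ≤ ‖h‖ ^ 2 * (n * C ^ 2 + n * (n - 1) * D) := by
    intro n
    have h1 : Tendsto (fun ε : ℝ => (n : ℝ) ^ 2 * (t ^ 2 - 2 * |t| * ε)) (𝓝[>] 0)
        (𝓝 ((n : ℝ) ^ 2 * (t ^ 2 - 2 * |t| * 0))) := by
      have : Continuous fun ε : ℝ => (n : ℝ) ^ 2 * (t ^ 2 - 2 * |t| * ε) := by fun_prop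
      exact (this.tendsto 0).mono_left nhdsWithin_le_nhds
    have h2 : Tendsto (fun ε : ℝ => ‖h‖ ^ 2 * (n * C ^ 2 + n * (n - 1) * (D + ε))) (𝓝[>] 0)
        (𝓝 (‖h‖ ^ 2 * (n * C ^ 2 + n * (n - 1) * (D + 0)))) := by
      have : Continuous fun ε : ℝ => ‖h‖ ^ 2 * (n * C ^ 2 + n * (n - 1) * (D + ε)) := by fun_prop
      exact (this.tendsto 0).mono_left nhdsWithin_le_nhds
    have h3 := le_of_tendsto_of_tendsto h1 h2
      (by filter_upwards [self_mem_nhdsWithin] with ε hε; exact key n ε hε)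
    simpa using h3
  -- let `n → ∞`
  by_contra hcon
  push Not at hcon
  have hpos : 0 < t ^ 2 - ‖h‖ ^ 2 * D := by linarith
  obtain ⟨n, hn⟩ := exists_nat_gt (‖h‖ ^ 2 * (C ^ 2 - D) / (t ^ 2 - ‖h‖ ^ 2 * D))
  rw [div_lt_iff₀ hpos] at hn
  have h1 := key2 (n + 1)
  push_cast at h1
  have h2 : (0 : ℝ) < (n : ℝ) + 1 := by positivity
  have h3 : ((n : ℝ) + 1) * t ^ 2 ≤ ‖h‖ ^ 2 * (C ^ 2 + n * D) := by
    have h4 : ((n : ℝ) + 1) * (((n : ℝ) + 1) * t ^ 2) ≤
        ((n : ℝ) + 1) * (‖h‖ ^ 2 * (C ^ 2 + n * D)) := by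
      calc ((n : ℝ) + 1) * (((n : ℝ) + 1) * t ^ 2) = ((n : ℝ) + 1) ^ 2 * t ^ 2 := by ring
        _ ≤ _ := h1
        _ = _ := by ring
    exact le_of_mul_le_mul_left h4 h2
  nlinarith

end vdc

section main

variable {M : Type*} {p : Ultrafilter M} [AddCommMonoid M]
variable {H : Type*} [NormedAddCommGroup H] [InnerProductSpace ℝ H] [CompleteSpace H]

/-- **Quadratic families of commuting isometries**: the limit of `⟨U_{K m} h, h⟩` along an
idempotent ultrafilter is at least `-‖h‖²/2`. -/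
theorem quad_ge {G : Type*} [CommMonoid G] (hp : Idem p) (U : G → (H →L[ℝ] H))
    (hU : ∀ c g h, ⟪U c g, U c h⟫_ℝ = ⟪g, h⟫_ℝ) (hUm : ∀ c d g, U (c * d) g = U c (U d g))
    (K : M → G) (e : M → M → G) (hK : ∀ a b, K (a + b) = K a * e a b * K b)
    (he : ∀ a b c, e a (b + c) = e a b * e a c) (h : H) :
    ∃ t : ℝ, Tendsto (fun m => ⟪U (K m) h, h⟫_ℝ) p (𝓝 t) ∧ -(‖h‖ ^ 2) ≤ 2 * t := by
  have hn : ∀ c (g : H), ‖U c g‖ = ‖g‖ := by
    intro c g
    have h1 := hU c g g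
    rw [real_inner_self_eq_norm_sq, real_inner_self_eq_norm_sq] at h1
    exact (pow_left_inj₀ (norm_nonneg _) (norm_nonneg _) two_ne_zero).mp h1
  have hb : ∀ g g' : H, |⟪g, g'⟫_ℝ| ≤ ‖g‖ * ‖g'‖ := fun g g' => abs_real_inner_le_norm _ _
  obtain ⟨t, -, ht⟩ := exists_lim p (fun m => ⟪U (K m) h, h⟫_ℝ) (‖h‖ * ‖h‖) (by
    intro m
    refine (hb _ _).trans ?_
    rw [hn])
  refine ⟨t, ht, ?_⟩
  have h1 : ∀ a, ∃ r, |r| ≤ ‖h‖ * ‖h‖ ∧
      Tendsto (fun b => ⟪U (K a) (U (e a b) h), h⟫_ℝ) p (𝓝 r) := by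
    intro a
    refine exists_lim p _ _ ?_
    intro m
    refine (hb _ _).trans ?_
    rw [hn, hn]
  choose d hd hd' using h1
  obtain ⟨D, -, hD⟩ := exists_lim p d _ hd
  have h2 : t ^ 2 ≤ ‖h‖ ^ 2 * D := by
    refine vdc hp (fun m => U (K m) h) ‖h‖ (fun m => (hn _ _).le) h t ht d ?_ D hD
    intro a
    refine (hd' a).congr ?_
    intro b
    rw [hK, mul_comm, hUm, hU, hUm]
  have h3 : ∀ a, 2 * d a ≤ ‖h‖ ^ 2 + ⟪U (K a) h, h⟫_ℝ := by
    intro a
    refine two_mul_le hp (fun m => U (e a m)) (fun m g g' => hU _ _ _) ?_ (U (K a))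
      (fun g g' => hU _ _ _) ?_ h (d a) (hd' a)
    · intro b c g
      rw [he, hUm]
    · intro m g
      rw [← hUm, mul_comm, hUm]
  have h4 : 2 * D ≤ ‖h‖ ^ 2 + t :=
    le_of_tendsto_of_tendsto (hD.const_mul 2) (tendsto_const_nhds.add ht)
      (Filter.univ_mem' h3)
  -- `2 t² ≤ N (N + t)`, `N = ‖h‖²`
  by_contra hcon
  push Not at hcon
  have h5 : 0 ≤ ‖h‖ ^ 2 := sq_nonneg _
  have h6 : |t| ≤ ‖h‖ ^ 2 := by
    have h7 : ∀ m, |⟪U (K m) h, h⟫_ℝ| ≤ ‖h‖ ^ 2 := by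
      intro m
      refine (hb _ _).trans ?_
      rw [hn, sq]
    exact le_of_tendsto ht.abs (Filter.univ_mem' h7)
  have h7 := abs_le.mp h6
  have h8 : 2 * t ^ 2 ≤ ‖h‖ ^ 2 * (‖h‖ ^ 2 + t) := by nlinarith
  -- (2 t + N)(t - N) = 2 t² - N t - N² ≤ 0
  have h9 : (2 * t + ‖h‖ ^ 2) * (t - ‖h‖ ^ 2) ≤ 0 := by nlinarith
  have h10 : 2 * t + ‖h‖ ^ 2 < 0 := by linarith
  have h11 : t - ‖h‖ ^ 2 < 0 := by linarith
  nlinarith

end main

end Pool.Agent.Lib.MP_018e2a_an.TH
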