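import Mathlib
import Pool.Agent.Lib.MP_018e2a_an.TH.VdC

/-!
# Return times of `T_{γ × γ}`
-/

set_option autoImplicit false

namespace Pool.Agent.Lib.MP_018e2a_an.TH

open Filter Topology InnerProductSpace MeasureTheory
open scoped IsMulCommutative

section pair

variable {G : Type*} [CommMonoid G]

/-- the bilinear pairing `∏ t i j ^ (m i * m' j)` -/
noncomputable def pair (t : ℕ → ℕ → G) (m m' : ℕ →₀ ℕ) : G :=
  m.prod fun i a => m'.prod fun j b => t i j ^ (a * b)

lemma pair_add_left (t : ℕ → ℕ → G) (a b c : ℕ →₀ ℕ) :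
    pair t (a + b) c = pair t a c * pair t b c := by
  unfold pair
  rw [Finsupp.prod_add_index']
  · intro i
    simp
  · intro i x y
    rw [← Finsupp.prod_mul]
    refine Finsupp.prod_congr ?_
    intro j _
    rw [add_mul, pow_add]

lemma pair_add_right (t : ℕ → ℕ → G) (a b c : ℕ →₀ ℕ) :
    pair t a (b + c) = pair t a b * pair t a c := by
  unfold pair
  rw [← Finsupp.prod_mul]
  refine Finsupp.prod_congr ?_
  intro i _
  rw [Finsupp.prod_add_index']
  · intro j
    simp
  · intro j x y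
    rw [mul_add, pow_add]

lemma pair_ind (t : ℕ → ℕ → G) (γ : Finset ℕ) :
    pair t (∑ i ∈ γ, Finsupp.single i 1) (∑ i ∈ γ, Finsupp.single i 1) =
      ∏ i ∈ γ, ∏ j ∈ γ, t i j := by
  unfold pair
  rw [← Finsupp.prod_finsetSum_index]
  · refine Finset.prod_congr rfl ?_
    intro i _
    rw [Finsupp.prod_single_index]
    · rw [← Finsupp.prod_finsetSum_index]
      · refine Finset.prod_congr rfl ?_
        intro j _
        rw [Finsupp.prod_single_index] <;> simp
      · intro j
        simp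
      · intro j x y
        rw [mul_add, pow_add]
    · simp
  · intro i
    simp
  · intro i x y
    rw [← Finsupp.prod_mul]
    refine Finsupp.prod_congr ?_
    intro j _
    rw [add_mul, pow_add]

end pair

lemma fs_mem {M : Type*} [AddCommMonoid M] (a : Stream' M) (m : M) (h : Hindman.FS a m) :
    ∃ γ : Finset ℕ, γ.Nonempty ∧ m = ∑ i ∈ γ, a.get i := by
  induction h with
  | head' a => exact ⟨{0}, by simp, by simp [Stream'.head]⟩
  | tail' a m _ ih =>
    obtain ⟨γ, hγ, hm⟩ := ih
    refine ⟨γ.map ⟨Nat.succ, Nat.succ_injective⟩, by simpa using hγ, ?_⟩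
    rw [hm, Finset.sum_map]
    rfl
  | cons' a m _ ih =>
    obtain ⟨γ, hγ, hm⟩ := ih
    refine ⟨insert 0 (γ.map ⟨Nat.succ, Nat.succ_injective⟩), by simp, ?_⟩
    rw [hm, Finset.sum_insert, Finset.sum_map]
    · rfl
    · simp

/-- `T_{γ × γ}`, the product of `T i j` over `i, j ∈ γ` -/
noncomputable def sq {X : Type*} (T : ℕ → ℕ → X → X) (γ : Finset ℕ) : X → X :=
  List.foldr
    (fun (i : ℕ) (f : X → X) =>
      (List.foldr (fun (j : ℕ) (g : X → X) => T i j ∘ g) (id : X → X) γ.toList) ∘ f)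
    (id : X → X) γ.toList

lemma foldr_comp {X : Type*} (f : ℕ → Function.End X) (l : List ℕ) :
    List.foldr (fun (j : ℕ) (g : X → X) => (f j : X → X) ∘ g) (id : X → X) l =
      ((l.map f).prod : Function.End X) := by
  induction l with
  | nil => rfl
  | cons a l ih =>
    rw [List.foldr_cons, ih, List.map_cons, List.prod_cons]
    rfl

theorem ret {X : Type*} [MeasurableSpace X] (μ : Measure X) [IsProbabilityMeasure μ]
    (T : ℕ → ℕ → X → X) (hT : ∀ i j, MeasurePreserving (T i j) μ μ)
    (hc : ∀ i j k l, T i j ∘ T k l = T k l ∘ T i j) (A : Set X) (hA : MeasurableSet A)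
    (β : ℕ → Finset ℕ) (hβ : ∀ i j, i ≠ j → Disjoint (β i) (β j)) (ε : ℝ) (hε : 0 < ε) :
    ∃ F : Finset ℕ, F.Nonempty ∧
      (3 * μ.real A ^ 2 - μ.real A) / 2 - ε ≤ μ.real (A ∩ sq T (F.biUnion β) ⁻¹' A) := by
  let S : Set (Function.End X) := Set.range fun q : ℕ × ℕ => (T q.1 q.2 : Function.End X)
  have hS : ∀ a ∈ S, ∀ b ∈ S, a * b = b * a := by
    rintro _ ⟨q, rfl⟩ _ ⟨q', rfl⟩
    exact hc _ _ _ _
  have hcm : IsMulCommutative (Submonoid.closure S) :=
    Submonoid.isMulCommutative_closure (Function.End X) hS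
  have hmp : ∀ c : Submonoid.closure S, MeasurePreserving (c.1 : X → X) μ μ := by
    rintro ⟨c, hc'⟩
    refine Submonoid.closure_induction (motive := fun (c : Function.End X) _ =>
      MeasurePreserving (c : X → X) μ μ) ?_ ?_ ?_ hc'
    · rintro _ ⟨q, rfl⟩
      exact hT _ _
    · exact MeasurePreserving.id μ
    · intro x y _ _ hx hy
      exact hx.comp hy
  let t : ℕ → ℕ → Submonoid.closure S := fun i j =>
    ⟨(T i j : Function.End X), Submonoid.subset_closure ⟨(i, j), rfl⟩⟩
  let U : Submonoid.closure S → (Lp ℝ 2 μ →L[ℝ] Lp ℝ 2 μ) := fun c =>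
    (Lp.compMeasurePreservingₗᵢ ℝ (c.1 : X → X) (hmp c)).toContinuousLinearMap
  have hUapp : ∀ c g, U c g = Lp.compMeasurePreserving (c.1 : X → X) (hmp c) g := fun _ _ => rfl
  have hU : ∀ c g h, ⟪U c g, U c h⟫_ℝ = ⟪g, h⟫_ℝ := fun c g h =>
    LinearIsometry.inner_map_map (Lp.compMeasurePreservingₗᵢ ℝ (c.1 : X → X) (hmp c)) g h
  have hUm : ∀ c d g, U (c * d) g = U c (U d g) := by
    intro c d g
    rw [mul_comm c d, hUapp, hUapp, hUapp]
    exact Lp.compMeasurePreserving_comp_apply g (hmp d) (hmp c)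
  obtain ⟨p, hp, hFS⟩ := Hindman.exists_idempotent_ultrafilter_le_FS
    (M := ℕ →₀ ℕ) (fun n => ∑ k ∈ β n, Finsupp.single k 1)
  have hidem : Idem p := by
    intro Q hQ
    rw [← hp] at hQ
    exact (Ultrafilter.eventually_add p p Q).mp hQ
  have hα : μ A ≠ ⊤ := measure_ne_top μ A
  let f : Lp ℝ 2 μ := indicatorConstLp 2 hA hα (1 : ℝ)
  let o : Lp ℝ 2 μ := indicatorConstLp 2 MeasurableSet.univ (measure_ne_top μ _) (1 : ℝ)
  set α : ℝ := μ.real A with hαdef
  let h : Lp ℝ 2 μ := f - α • o
  have hUf : ∀ c, U c f = indicatorConstLp 2 (hA.preimage (hmp c).measurable)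
      (measure_ne_top μ _) (1 : ℝ) := fun c => rfl
  have hUo : ∀ c, U c o = o := fun c => rfl
  have e1 : ⟪f, f⟫_ℝ = α := by
    rw [L2.real_inner_indicatorConstLp_one_indicatorConstLp_one, Set.inter_self]
  have e2 : ⟪f, o⟫_ℝ = α := by
    rw [L2.real_inner_indicatorConstLp_one_indicatorConstLp_one, Set.inter_univ]
  have e2' : ⟪o, f⟫_ℝ = α := by
    rw [real_inner_comm, e2]
  have e3 : ⟪o, o⟫_ℝ = 1 := by
    rw [L2.real_inner_indicatorConstLp_one_indicatorConstLp_one, Set.inter_univ]
    simp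
  have e4 : ∀ c, ⟪U c f, f⟫_ℝ = μ.real (A ∩ (c.1 : X → X) ⁻¹' A) := by
    intro c
    rw [hUf, L2.real_inner_indicatorConstLp_one_indicatorConstLp_one, Set.inter_comm]
  have e5 : ∀ c, ⟪U c f, o⟫_ℝ = α := by
    intro c
    rw [← hUo c, hU, e2]
  have e6 : ∀ c, ⟪U c h, h⟫_ℝ = μ.real (A ∩ (c.1 : X → X) ⁻¹' A) - α ^ 2 := by
    intro c
    have h1 : U c h = U c f - α • o := by
      show U c (f - α • o) = _
      rw [map_sub, map_smul, hUo]
    rw [h1]
    show ⟪U c f - α • o, f - α • o⟫_ℝ = _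
    rw [inner_sub_left, inner_sub_right, inner_sub_right, real_inner_smul_left,
      real_inner_smul_left, real_inner_smul_right, real_inner_smul_right, e4, e5, e3, e2']
    ring
  have e7 : ‖h‖ ^ 2 = α - α ^ 2 := by
    rw [← real_inner_self_eq_norm_sq]
    show ⟪f - α • o, f - α • o⟫_ℝ = _
    rw [inner_sub_left, inner_sub_right, inner_sub_right, real_inner_smul_left,
      real_inner_smul_left, real_inner_smul_right, real_inner_smul_right, e1, e3, e2', e2]
    ring
  obtain ⟨s, hs, hs'⟩ := quad_ge hidem U hU hUm (fun m => pair t m m)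
    (fun a b => pair t a b * pair t b a)
    (by
      intro a b
      show pair t (a + b) (a + b) = pair t a a * (pair t a b * pair t b a) * pair t b b
      rw [pair_add_left, pair_add_right, pair_add_right]
      simp only [mul_assoc])
    (by
      intro a b c
      show pair t a (b + c) * pair t (b + c) a =
        pair t a b * pair t b a * (pair t a c * pair t c a)
      rw [pair_add_left, pair_add_right]
      exact mul_mul_mul_comm _ _ _ _) h
  obtain ⟨m, hm1, hm2⟩ := ((Metric.tendsto_nhds.mp hs ε hε).and hFS).exists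
  obtain ⟨F, hF, hmF⟩ := fs_mem _ _ hm2
  refine ⟨F, hF, ?_⟩
  set γ : Finset ℕ := F.biUnion β
  have h1 : m = ∑ i ∈ γ, Finsupp.single i 1 := by
    rw [hmF, Finset.sum_biUnion (fun i _ j _ hij => hβ i j hij)]
    rfl
  have h2 : ((pair t m m).1 : X → X) = sq T γ := by
    rw [h1, pair_ind]
    have h3 : ∀ (g : ℕ → Submonoid.closure S), ((∏ i ∈ γ, g i : Submonoid.closure S) :
        Function.End X) = (γ.toList.map fun i => ((g i : Submonoid.closure S) :
          Function.End X)).prod := by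
      intro g
      rw [← Finset.prod_map_toList]
      have h6 := map_list_prod (Submonoid.closure S).subtype (γ.toList.map g)
      rw [List.map_map] at h6
      exact h6
    rw [h3]
    unfold sq
    have h4 : ∀ i, List.foldr (fun (j : ℕ) (g : X → X) => T i j ∘ g) (id : X → X) γ.toList =
        ((∏ j ∈ γ, t i j : Submonoid.closure S) : Function.End X) := by
      intro i
      rw [h3]
      exact foldr_comp (fun j => ((t i j : Submonoid.closure S) : Function.End X)) γ.toList
    simp only [h4]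
    exact (foldr_comp (fun i => ((∏ j ∈ γ, t i j : Submonoid.closure S) : Function.End X))
      γ.toList).symm
  rw [Real.dist_eq, e6, h2] at hm1
  have h5 := (abs_lt.mp hm1).1
  rw [e7] at hs'
  linarith

end Pool.Agent.Lib.MP_018e2a_an.TH
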